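import Mathlib

open Set Real

namespace Pool.Agent.Results.MP_c0afcf_an.Wheel

/-- A compact metric graph: edge `e` is the interval `[0, len e]` from `src e` to `tgt e`. -/
structure MGraph (nV nE : ℕ) where
  src : Fin nE → Fin nV
  tgt : Fin nE → Fin nV
  len : Fin nE → ℝ
  len_pos : ∀ e, 0 < len e

variable {nV nE : ℕ} (Γ : MGraph nV nE)

def Connected : Prop :=
  0 < nV ∧ ∀ v w, Relation.EqvGen (fun a b => ∃ e, Γ.src e = a ∧ Γ.tgt e = b) v w

/-- points of the graph: vertices and interior points of edges -/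
def Pt : Type := Fin nV ⊕ (Σ e : Fin nE, Ioo (0 : ℝ) (Γ.len e))

/-- the function on the graph with vertex values `x` and edge restrictions `f` -/
def val (x : Fin nV → ℝ) (f : Fin nE → ℝ → ℝ) : Pt Γ → ℝ
  | Sum.inl v => x v
  | Sum.inr p => f p.1 p.2

/-- `ψ` is a nonzero eigenfunction of the standard Laplacian with eigenvalue `μ` -/
def IsEigenfun (μ : ℝ) (ψ : Pt Γ → ℝ) : Prop :=
  ψ ≠ 0 ∧ ∃ (x : Fin nV → ℝ) (f g : Fin nE → ℝ → ℝ), ψ = val Γ x f ∧
    (∀ e, ∀ s ∈ Icc 0 (Γ.len e), HasDerivWithinAt (f e) (g e s) (Icc 0 (Γ.len e)) s ∧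
      HasDerivWithinAt (g e) (-μ * f e s) (Icc 0 (Γ.len e)) s) ∧
    (∀ e, f e 0 = x (Γ.src e) ∧ f e (Γ.len e) = x (Γ.tgt e)) ∧
    ∀ v, (∑ e, if Γ.src e = v then g e 0 else 0) -
      (∑ e, if Γ.tgt e = v then g e (Γ.len e) else 0) = 0

/-- the points where some eigenfunction for `μ` attains its global maximum or minimum -/
def Hot (μ : ℝ) : Set (Pt Γ) :=
  {p | ∃ ψ, IsEigenfun Γ μ ψ ∧ ((∀ q, ψ q ≤ ψ p) ∨ ∀ q, ψ p ≤ ψ q)}

lemma ode {f g : ℝ → ℝ} {k l : ℝ} (hk : k ≠ 0)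
    (h : ∀ s ∈ Icc 0 l, HasDerivWithinAt f (g s) (Icc 0 l) s ∧
      HasDerivWithinAt g (-(k ^ 2) * f s) (Icc 0 l) s) :
    ∀ s ∈ Icc 0 l, k * f s = k * f 0 * cos (k * s) + g 0 * sin (k * s) ∧
      g s = g 0 * cos (k * s) - k * f 0 * sin (k * s) := by
  have hc : ∀ s, HasDerivAt (fun s => cos (k * s)) (-sin (k * s) * k) s := fun s => by
    simpa using ((hasDerivAt_id s).const_mul k).cos
  have hs : ∀ s, HasDerivAt (fun s => sin (k * s)) (cos (k * s) * k) s := fun s => by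
    simpa using ((hasDerivAt_id s).const_mul k).sin
  have cst : ∀ u : ℝ → ℝ, (∀ s ∈ Icc 0 l, HasDerivWithinAt u 0 (Icc 0 l) s) →
      ∀ s ∈ Icc 0 l, u s = u 0 := fun u hu =>
    constant_of_has_deriv_right_zero (fun s hs => (hu s hs).continuousWithinAt) fun s hs =>
      (hu s (Ico_subset_Icc_self hs)).mono_of_mem_nhdsWithin (Icc_mem_nhdsGE_of_mem hs)
  have h1 := cst (fun s => k * f s * cos (k * s) - g s * sin (k * s)) fun s hs' => by
    exact ((((h s hs').1.const_mul k).mul (hc s).hasDerivWithinAt).sub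
      ((h s hs').2.mul (hs s).hasDerivWithinAt)).congr_deriv (by ring)
  have h2 := cst (fun s => k * f s * sin (k * s) + g s * cos (k * s)) fun s hs' => by
    exact ((((h s hs').1.const_mul k).mul (hs s).hasDerivWithinAt).add
      ((h s hs').2.mul (hc s).hasDerivWithinAt)).congr_deriv (by ring)
  intro s hs'
  have a := h1 s hs'
  have b := h2 s hs'
  simp only [mul_zero, cos_zero, sin_zero, mul_one, sub_zero, zero_add] at a b
  have c := sin_sq_add_cos_sq (k * s)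
  constructor
  · linear_combination cos (k * s) * a + sin (k * s) * b - k * f s * c
  · linear_combination (-sin (k * s)) * a + cos (k * s) * b - g s * c

noncomputable def W : MGraph 5 8 where
  src := ![0, 1, 2, 3, 4, 4, 4, 4]
  tgt := ![1, 2, 3, 0, 0, 1, 2, 3]
  len := fun _ => π / 2
  len_pos := fun _ => by positivity

lemma analyse {k : ℝ} (hk : 0 < k) (hk1 : k ≤ 1) {ψ : Pt W → ℝ} (h : IsEigenfun W (k ^ 2) ψ) :
    k = 1 ∧ ψ (Sum.inl 4) = 0 ∧ ψ (Sum.inl 0) + ψ (Sum.inl 2) = 0 ∧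
      ψ (Sum.inl 1) + ψ (Sum.inl 3) = 0 ∧ ¬ (ψ (Sum.inl 0) = 0 ∧ ψ (Sum.inl 1) = 0) := by
  obtain ⟨h0, x, f, g, rfl, hd, hb, hK⟩ := h
  have hpi : 0 < π / 2 := by positivity
  have o := fun e => ode hk.ne' (hd e)
  set c := cos (k * (π / 2)) with hc
  set σ := sin (k * (π / 2)) with hσ
  have hkp : k * (π / 2) ≤ π / 2 := by nlinarith
  have hσ0 : 0 < σ := sin_pos_of_pos_of_lt_pi (by positivity) (by linarith)
  have hc0 : 0 ≤ c := cos_nonneg_of_mem_Icc ⟨by linarith [mul_pos hk hpi], hkp⟩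
  have hcs : σ ^ 2 + c ^ 2 = 1 := sin_sq_add_cos_sq _
  have hc1 : c < 1 := by nlinarith
  have e1 : ∀ e, σ * g e 0 = k * (x (W.tgt e) - c * x (W.src e)) ∧
      σ * g e (π / 2) = k * (c * x (W.tgt e) - x (W.src e)) := by
    intro e
    obtain ⟨a, b⟩ := o e (π / 2) ⟨hpi.le, le_rfl⟩
    have t := (hb e).2
    change f e (π / 2) = _ at t
    rw [(hb e).1, ← hc, ← hσ] at a b
    rw [t] at a
    constructor
    · linear_combination -a
    · linear_combination σ * b - c * a - k * x (W.src e) * hcs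
  have K : ∀ v, (∑ e, if W.src e = v then x (W.tgt e) - c * x (W.src e) else 0) -
      (∑ e, if W.tgt e = v then c * x (W.tgt e) - x (W.src e) else 0) = 0 := by
    intro v
    apply mul_left_cancel₀ hk.ne'
    have := congrArg (σ * ·) (hK v)
    simp only [mul_sub σ, Finset.mul_sum, mul_ite, mul_zero, (e1 _).1] at this
    rw [mul_sub, Finset.mul_sum, Finset.mul_sum]
    simp only [mul_ite, mul_zero, ← (e1 _).2]
    exact this
  have K0 := K 0
  have K1 := K 1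
  have K2 := K 2
  have K3 := K 3
  have K4 := K 4
  simp [Fin.sum_univ_succ, W] at K0 K1 K2 K3 K4
  have y0 : x 4 = 0 := by
    have : x 4 * ((3 * c + 1) * (1 - c)) = 0 := by
      linear_combination (1 / 4 : ℝ) * (K0 + K1 + K2 + K3) + (3 * c - 2) / 4 * K4
    rcases mul_eq_zero.1 this with h | h
    · exact h
    · exact absurd h (mul_pos (by linarith) (by linarith)).ne'
  have nz : ¬ (x 0 = 0 ∧ x 1 = 0 ∧ x 2 = 0 ∧ x 3 = 0) := by
    rintro ⟨a0, a1, a2, a3⟩
    have xz : ∀ v, x v = 0 := by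
      intro v; fin_cases v <;> assumption
    apply h0
    funext p
    rcases p with v | ⟨e, s⟩
    · exact xz v
    · have := (o e s (Ioo_subset_Icc_self s.2)).1
      have g0 : g e 0 = 0 := by
        have := (e1 e).1
        simpa [xz, hσ0.ne'] using this
      change f e s = 0
      simpa [(hb e).1, xz, g0, hk.ne'] using this
  rw [y0] at K0 K1 K2 K3 K4
  have c0 : c = 0 := by
    by_contra hne
    have cp : 0 < c := lt_of_le_of_ne hc0 (Ne.symm hne)
    have a : x 0 = x 2 := by apply mul_left_cancel₀ hne; linarith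
    have b : x 1 = x 3 := by apply mul_left_cancel₀ hne; linarith
    have d : x 0 * (3 * c + 2) = 0 := by linarith
    have d0 : x 0 = 0 := (mul_eq_zero.1 d).resolve_right (by linarith)
    exact nz ⟨d0, by linarith, by linarith, by linarith⟩
  rw [c0] at K0 K1
  refine ⟨?_, y0, by change x 0 + x 2 = 0; linarith, by change x 1 + x 3 = 0; linarith,
    fun ⟨a, b⟩ => nz ⟨a, b, by change x 0 = 0 at a; linarith, by change x 1 = 0 at b; linarith⟩⟩
  by_contra hne
  have : k * (π / 2) < π / 2 := by nlinarith [lt_of_le_of_ne hk1 hne]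
  exact (cos_pos_of_mem_Ioo ⟨by linarith [mul_pos hk hpi], this⟩).ne' c0

noncomputable def xv (θ : ℝ) : Fin 5 → ℝ := ![cos θ, sin θ, -cos θ, -sin θ, 0]

noncomputable def ps (θ : ℝ) : Pt W → ℝ :=
  val W (xv θ) fun e s => xv θ (W.src e) * cos s + xv θ (W.tgt e) * sin s

lemma ps_top (θ : Ioo (0 : ℝ) (π / 2)) : ps θ (Sum.inr ⟨0, θ⟩) = 1 := by
  simp only [ps, val, xv, W]
  simp
  nlinarith [sin_sq_add_cos_sq θ.1]

lemma ps_eig (θ : Ioo (0 : ℝ) (π / 2)) : IsEigenfun W 1 (ps θ) := by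
  refine ⟨fun h => ?_, _, _, fun e s => -xv θ (W.src e) * sin s + xv θ (W.tgt e) * cos s, rfl,
    fun e s _ => ⟨?_, ?_⟩, fun e => ⟨by simp, by simp [W]⟩, fun v => ?_⟩
  · have := ps_top θ
    rw [h] at this
    exact zero_ne_one this
  · exact (((hasDerivAt_cos s).const_mul (xv θ (W.src e))).add
      ((hasDerivAt_sin s).const_mul (xv θ (W.tgt e)))).hasDerivWithinAt.congr_deriv (by ring)
  · exact (((hasDerivAt_sin s).const_mul (-xv θ (W.src e))).add
      ((hasDerivAt_cos s).const_mul (xv θ (W.tgt e)))).hasDerivWithinAt.congr_deriv (by ring)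
  · fin_cases v <;> simp [Fin.sum_univ_succ, W, xv]

lemma ps_le (θ : ℝ) (q : Pt W) : ps θ q ≤ 1 := by
  have a := sin_sq_add_cos_sq θ
  rcases q with v | ⟨e, s⟩
  · fin_cases v <;> simp [ps, val, xv] <;> nlinarith
  · have b := sin_sq_add_cos_sq s.1
    have : xv θ (W.src e) ^ 2 + xv θ (W.tgt e) ^ 2 ≤ 1 := by
      fin_cases e <;> simp [xv, W, abs_cos_le_one, abs_sin_le_one]
    change xv θ (W.src e) * cos s + xv θ (W.tgt e) * sin s ≤ 1
    nlinarith [sq_nonneg (xv θ (W.src e) - cos s), sq_nonneg (xv θ (W.tgt e) - sin s)]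

theorem result : ∃ (nV nE : ℕ) (Γ : MGraph nV nE) (μ : ℝ), Connected Γ ∧
    IsLeast {ν | 0 < ν ∧ ∃ ψ, IsEigenfun Γ ν ψ} μ ∧ (Hot Γ μ).Infinite ∧ Hot Γ μ ≠ univ := by
  have hpi : 0 < π / 2 := by positivity
  refine ⟨5, 8, W, 1, ⟨by norm_num, ?_⟩, ⟨⟨one_pos, _, ps_eig ⟨π / 4, by constructor <;> linarith⟩⟩,
    ?_⟩, ?_, fun h => ?_⟩
  · have : ∀ v, Relation.EqvGen (fun a b => ∃ e, W.src e = a ∧ W.tgt e = b) 4 v := by
      intro v
      fin_cases v
      · exact .rel _ _ ⟨4, rfl, rfl⟩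
      · exact .rel _ _ ⟨5, rfl, rfl⟩
      · exact .rel _ _ ⟨6, rfl, rfl⟩
      · exact .rel _ _ ⟨7, rfl, rfl⟩
      · exact .refl _
    exact fun v w => .trans _ _ _ (.symm _ _ (this v)) (this w)
  · rintro ν ⟨h0, ψ, hψ⟩
    by_contra hlt
    rw [← sq_sqrt h0.le] at hψ
    have := (analyse (sqrt_pos.2 h0) (sqrt_le_one.2 (by linarith [not_le.1 hlt])) hψ).1
    rw [sqrt_eq_one] at this
    exact hlt this.ge
  · haveI := Ioo.infinite hpi
    refine infinite_of_injective_forall_mem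
      (f := fun θ : Ioo (0 : ℝ) (π / 2) => (Sum.inr ⟨0, θ⟩ : Pt W)) (fun a b e => ?_) fun θ =>
      ⟨ps θ, ps_eig θ, Or.inl fun q => by rw [ps_top]; exact ps_le _ _⟩
    exact eq_of_heq (Sigma.mk.inj (Sum.inr.inj e)).2
  · obtain ⟨ψ, hψ, h1⟩ : (Sum.inl 4 : Pt W) ∈ Hot W 1 := h ▸ mem_univ _
    obtain ⟨-, a, b, c, d⟩ := analyse one_pos le_rfl (by simpa using hψ)
    apply d
    rcases h1 with h1 | h1 <;> constructor <;>
      linarith [h1 (Sum.inl 0), h1 (Sum.inl 1), h1 (Sum.inl 2), h1 (Sum.inl 3)]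

end Pool.Agent.Results.MP_c0afcf_an.Wheel
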